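import Pool.Agent.helper78.FS.Spec

/-!
# Project FS (MP_55808c_co), row CND (helper3)
-/

set_option autoImplicit false

namespace Pool.Agent.helper78.FS

open Finset Real
open Classical

noncomputable section

theorem CND : CND_stmt := by
  intro hCNA hCNC V ι _ _ G col σ a b c x y n hsym hirr hClo hTri hσ hWx hWy hxy hPx hPy hDx
  obtain ⟨⟨u, hu, hGu, hGuu⟩, hinj, -⟩ := hWx
  obtain ⟨-, -, hcyc, -⟩ := hCNA V ι G a b c x u hsym hirr hClo hTri hu hGu hGuu
  obtain ⟨i, hi⟩ := (hGu y).1 hxy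
  have h7 : (7 : ZMod 7) = 0 := by decide
  have h1 : G x (u (i + 1)) := (hGu _).2 ⟨_, rfl⟩
  have h2 : G x (u (i - 1)) := (hGu _).2 ⟨_, rfl⟩
  have h3 : G y (u (i + 1)) := by
    rw [hi]
    exact (hGuu _ _).2 (Or.inl rfl)
  have h4 : G y (u (i - 1)) := by
    rw [hi]
    exact (hGuu _ _).2 (Or.inr (by ring))
  have hw : ∃ w, G x w ∧ G y w ∧ σ (col w) - σ (col x) = 3 * (σ (col y) - σ (col x)) := by
    rcases hPx y (u (i + 1)) hxy h1 h3 with h5 | h5
    · exact ⟨_, h1, h3, h5⟩
    · rcases hPx y (u (i - 1)) hxy h2 h4 with h6 | h6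
      · exact ⟨_, h2, h4, h6⟩
      · exfalso
        have h7' : σ (col (u (i + 1))) = σ (col (u (i - 1))) := by
          have h8 : (3 : ZMod 7) * (σ (col (u (i + 1))) - σ (col x)) = 3 * (σ (col (u (i - 1))) - σ (col x)) := by
            rw [← h5, ← h6]
          have h9 : (5 : ZMod 7) * (3 * (σ (col (u (i + 1))) - σ (col x))) = 5 * (3 * (σ (col (u (i - 1))) - σ (col x))) := by
            rw [h8]
          linear_combination h9 - 2 * (σ (col (u (i + 1))) - σ (col (u (i - 1)))) * h7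
        have h8 := hu (hinj _ _ h1 h2 (hσ h7'))
        have h9 : (2 : ZMod 6) = 0 := by linear_combination h8
        revert h9
        decide
  obtain ⟨w, hxw, hyw, hw⟩ := hw
  have hcnt : cnt a b c x y w = n := hDx y w hxy hxw hyw hw
  obtain ⟨n', hn'⟩ := hCNC hCNA V ι G col σ a b c y hsym hirr hClo hTri hσ hWy hPy
  have h5 : cnt a b c y w x = n' := by
    refine hn' w x hyw (hsym _ _ hxy) (hsym _ _ hxw) ?_
    linear_combination -3 * hw - (σ (col y) - σ (col x)) * h7
  have h6 : n' = n := by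
    rw [← h5, ← hcnt]
    exact hcyc x y w
  rw [← h6]
  exact hn'

end

end Pool.Agent.helper78.FS
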