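import Pool.Agent.helper87.FS.Spec

/-!
# Row KRA: Krylov lattices of graphs with marked vertices
-/

set_option autoImplicit false

namespace Pool.Agent.FS

open Polynomial Matrix Pool.Agent.helper42.NS

/-- zero on the first `k` coordinates -/
def KRA_io (k m : ℕ) : (Fin m → ℤ) →ₗ[ℤ] (Fin (k + m) → ℤ) where
  toFun v := fun x => Fin.addCases (fun _ => (0 : ℤ)) v x
  map_add' u v := by
    funext x
    refine Fin.addCases (fun i => ?_) (fun j => ?_) x
    · simp
    · simp
  map_smul' c v := by
    funext x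
    refine Fin.addCases (fun i => ?_) (fun j => ?_) x
    · simp
    · simp

theorem KRA_io_left (k m : ℕ) (v : Fin m → ℤ) (i : Fin k) : KRA_io k m v (Fin.castAdd m i) = 0 := by
  simp [KRA_io]

theorem KRA_io_right (k m : ℕ) (v : Fin m → ℤ) (j : Fin m) : KRA_io k m v (Fin.natAdd k j) = v j := by
  simp [KRA_io]

theorem KRA_dec (k m : ℕ) (w : Fin (k + m) → ℤ) :
    w = (∑ i : Fin k, w (Fin.castAdd m i) • (Pi.single (Fin.castAdd m i) (1 : ℤ) : Fin (k + m) → ℤ)) +
      KRA_io k m (fun j => w (Fin.natAdd k j)) := by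
  funext x
  rw [Pi.add_apply, Finset.sum_apply]
  refine Fin.addCases (fun i => ?_) (fun j => ?_) x
  · rw [KRA_io_left, add_zero, Finset.sum_eq_single i]
    · simp
    · intro j _ hj
      rw [Pi.smul_apply, Pi.single_eq_of_ne, smul_zero]
      intro h
      exact hj (Fin.castAdd_injective k m h).symm
    · intro h
      exact absurd (Finset.mem_univ i) h
  · rw [KRA_io_right, Finset.sum_eq_zero, zero_add]
    intro i _
    rw [Pi.smul_apply, Pi.single_eq_of_ne, smul_zero]
    intro h
    have h1 := congrArg Fin.val h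
    simp only [Fin.val_natAdd, Fin.val_castAdd] at h1
    omega

theorem KRA_stab {t : ℕ} (A : Matrix (Fin t) (Fin t) ℤ) (S : Set (Fin t → ℤ)) (w : Fin t → ℤ) (hw : w ∈ Kry A S) :
    A.mulVec w ∈ Kry A S := by
  unfold Kry at hw ⊢
  induction hw using Submodule.span_induction with
  | mem x hx =>
    obtain ⟨b, hb, l, rfl⟩ := hx
    refine Submodule.subset_span ⟨b, hb, l + 1, ?_⟩
    rw [Matrix.mulVec_mulVec, pow_succ']
  | zero =>
    rw [Matrix.mulVec_zero]
    exact Submodule.zero_mem _
  | add x y _ _ hx hy =>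
    rw [Matrix.mulVec_add]
    exact Submodule.add_mem _ hx hy
  | smul a x _ hx =>
    rw [Matrix.mulVec_smul]
    exact Submodule.smul_mem _ a hx

theorem KRA : KRA_stmt := by
  intro k m A hA hH
  set L := Kry A (uv (Set.range (Fin.castAdd m))) with hL
  have he : ∀ i : Fin k, (Pi.single (Fin.castAdd m i) (1 : ℤ) : Fin (k + m) → ℤ) ∈ L := by
    intro i
    refine Submodule.subset_span ⟨_, ⟨Fin.castAdd m i, ⟨i, rfl⟩, rfl⟩, 0, ?_⟩
    rw [pow_zero, Matrix.one_mulVec]
  have hsum : ∀ c : Fin k → ℤ, (∑ i : Fin k, c i • (Pi.single (Fin.castAdd m i) (1 : ℤ) : Fin (k + m) → ℤ)) ∈ L :=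
    fun c => Submodule.sum_mem _ fun i _ => Submodule.smul_mem _ _ (he i)
  have hproj : ∀ w ∈ L, KRA_io k m (fun j => w (Fin.natAdd k j)) ∈ L := by
    intro w hw
    have h1 := KRA_dec k m w
    have h2 : KRA_io k m (fun j => w (Fin.natAdd k j)) =
        w - ∑ i : Fin k, w (Fin.castAdd m i) • (Pi.single (Fin.castAdd m i) (1 : ℤ) : Fin (k + m) → ℤ) :=
      eq_sub_of_add_eq' h1.symm
    rw [h2]
    exact Submodule.sub_mem _ hw (hsum _)
  set H : Matrix (Fin m) (Fin m) ℤ := fun i j : Fin m => A (Fin.natAdd k i) (Fin.natAdd k j) with hHdef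
  have hstep : ∀ v : Fin m → ℤ, KRA_io k m v ∈ L → KRA_io k m (H.mulVec v) ∈ L := by
    intro v hv
    have h1 := hproj _ (KRA_stab A _ _ hv)
    have h2 : (fun j => A.mulVec (KRA_io k m v) (Fin.natAdd k j)) = H.mulVec v := by
      funext j
      rw [Matrix.mulVec, Matrix.mulVec, dotProduct, dotProduct, Fin.sum_univ_add]
      rw [Finset.sum_eq_zero, zero_add]
      · refine Finset.sum_congr rfl fun i _ => ?_
        rw [KRA_io_right]
      · intro i _
        rw [KRA_io_left, mul_zero]
    rw [h2] at h1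
    exact h1
  have hB : ∀ i : Fin k, KRA_io k m (ind fun j : Fin m => decide (A (Fin.castAdd m i) (Fin.natAdd k j) = 1)) ∈ L := by
    intro i
    have h1 := hproj _ (KRA_stab A _ _ (he i))
    have h2 : (fun j => A.mulVec (Pi.single (Fin.castAdd m i) (1 : ℤ)) (Fin.natAdd k j)) =
        ind fun j : Fin m => decide (A (Fin.castAdd m i) (Fin.natAdd k j) = 1) := by
      funext j
      rw [Matrix.mulVec_single_one]
      show A (Fin.natAdd k j) (Fin.castAdd m i) = _
      rw [hA.2.2 (Fin.natAdd k j) (Fin.castAdd m i)]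
      unfold ind
      rcases hA.1 (Fin.castAdd m i) (Fin.natAdd k j) with h3 | h3
      · simp [h3]
      · simp [h3]
    rw [h2] at h1
    exact h1
  have hK : ∀ v : Fin m → ℤ, KRA_io k m v ∈ L := by
    intro v
    have hv : v ∈ Kry H (Set.range fun i : Fin k => ind fun j : Fin m => decide (A (Fin.castAdd m i) (Fin.natAdd k j) = 1)) := by
      rw [hH]
      exact Submodule.mem_top
    unfold Kry at hv
    induction hv using Submodule.span_induction with
    | mem x hx =>
      obtain ⟨b, ⟨i, rfl⟩, l, rfl⟩ := hx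
      induction l with
      | zero =>
        rw [pow_zero, Matrix.one_mulVec]
        exact hB i
      | succ l ih =>
        rw [pow_succ', ← Matrix.mulVec_mulVec]
        exact hstep _ ih
    | zero =>
      rw [map_zero]
      exact Submodule.zero_mem _
    | add x y _ _ hx hy =>
      rw [map_add]
      exact Submodule.add_mem _ hx hy
    | smul a x _ hx =>
      rw [map_smul]
      exact Submodule.smul_mem _ a hx
  rw [eq_top_iff]
  intro w _
  rw [KRA_dec k m w]
  exact Submodule.add_mem _ (hsum _) (hK _)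

end Pool.Agent.FS
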