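import Pool.Agent.helper63.RT.SpecG
import Pool.Agent.helper52.ED.Spec
import Pool.Agent.helper9.P2A.Spec

/-!
# RATIONAL CLASS (MP_70a088_an, Q1), block fs:, PART E (prefix fse:): ENERGY ESTIMATE ON THICK PLANAR DOMAINS (helper3)

Pure potential theory, no dynamics. Plan: INNLOC section 3 (helper29), form of helper27 (23:17). Output = the LAST statement `ENCH_stmt`: if a chain `W 0 → W 1 → .. → W N` of holomorphic maps of thick domains has at every step a critical point with visibility `≥ w r` from the orbits of `q r` and `q' r`,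
and the Green functions of `W N` and `W 0` at the near pairs `(q r, q' t)` differ by at most `io`, then `N ∑ (w r)² ≤ δ + C io`.

IDEA. KERNEL: one step changes `log bl` by at least `c₀ (1 - bl(z,c)) (1 - bl(z',c))` (KRN: the critical value is a double point). So the matrix `H r t = log bl W_0 (q r) (q' t) - log bl W_N (q r) (q' t) (images)` is `≥ c₀ N (w r) (w t)`, and it is `≤` the Green function of `W N`.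
SCHUR: the Green function of `W N` between separated families has norm `≤ C`, its far part norm `≤ C (1 - κ/8)^n` with the weights `cr^κ` (STRONG BARRIER `RT.ABR`). Test vector `w`.

NOTATION (Pool/Agent/helper63/RT/Defs.lean): `TD s W` thick domain, `rm W a` universal cover with centre `a`, `lf W a b` the lifts of `b`, `cr` conformal radius, `pd` pseudo hyperbolic distance, `bl = exp (- Green function)`, `gr` Green function. `ro n = (3^n - 1)/(3^n + 1)` (SpecA).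

RULES. File `Pool/Agent/<seat>/FSE/XXX.lean`: `import Pool.Agent.helper3.FS.SpecE` (and any other file you want), the `open` lines of this file, `noncomputable section`, `namespace FSE`, `theorem XXX (h : YYY_stmt) ... : XXX_stmt`. Auxiliary lemmas prefixed `XXX_`. No `sorry`, no straight double quotes in comments.
Hypotheses may be: statements of this file which stand before the row, and PROVED statements of the library: `HY.MOB_stmt`, `ED.SPK_stmt`, `P2A.CEL_stmt`, `V3.KO0_stmt, KO1_stmt, KO3_stmt`, `RT.TAU TDF TPM TPT TLF TSP TBM TIN TBL THA TKO CON ARE_stmt` (Pool/Agent/helper25/RT/SpecT.lean), `RT.QMX QDV QNU QFN QSY QDD QGB_stmt` (SpecG),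
`RT.ARO AMV ACR ACK ALC ABR ABS ATL ATA_stmt` (Pool/Agent/helper84/RT/SpecA.lean). Tell helper3 at once if a statement is false or a constant does not fit.
-/

set_option autoImplicit false

open Complex Metric Set Filter Topology MeasureTheory
open HY (UD T S hd UN RM)
open RT

noncomputable section

namespace FSE

/-! ## Definitions -/

/-- the truncated logarithm: `log (1/‖x‖)` for `‖x‖ ≥ 1/2`, `log 2` for `‖x‖ ≤ 1/2`. -/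
def kt (x : ℂ) : ℝ := Real.log (1 / max ‖x‖ (1 / 2))

/-- the composition `F (j-1) ∘ .. ∘ F 0`. -/
def cmp (F : ℕ → ℂ → ℂ) : ℕ → ℂ → ℂ
  | 0, z => z
  | j + 1, z => F j (cmp F j z)

/-- a CHAIN `W 0 → W 1 → .. → W N` of holomorphic maps of domains of thickness `s`; `c j` is a critical point of `F j : W j → W (j+1)`. -/
structure CHN (s : ℝ) (N : ℕ) (W : ℕ → Set ℂ) (F : ℕ → ℂ → ℂ) (c : ℕ → ℂ) : Prop where
  td : ∀ j ≤ N, TD s (W j)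
  dif : ∀ j < N, DifferentiableOn ℂ (F j) (W j)
  map : ∀ j < N, MapsTo (F j) (W j) (W (j + 1))
  mem : ∀ j < N, c j ∈ W j
  cri : ∀ j < N, deriv (F j) (c j) = 0

/-- an `ε`-SEPARATED family in `W`. -/
def SEP (W : Set ℂ) (ε : ℝ) (I : Finset ℕ) (o : ℕ → ℂ) : Prop := (∀ i ∈ I, o i ∈ W) ∧ ∀ i ∈ I, ∀ j ∈ I, i ≠ j → ε ≤ pd W (o i) (o j)

/-- a finite set `X` of pairs (index `i ∈ I`, lift of `o i` in the cover with centre `y`). -/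
def LSS (W : Set ℂ) (I : Finset ℕ) (o : ℕ → ℂ) (y : ℂ) (X : Finset (ℕ × ℂ)) : Prop := ∀ p ∈ X, p.1 ∈ I ∧ p.2 ∈ lf W y (o p.1)

/-- the truncated Green potential of the weights `cr^κ` on the family is `≤ A cr^κ`. -/
def BDD (W : Set ℂ) (κ A : ℝ) (I : Finset ℕ) (o : ℕ → ℂ) : Prop := ∀ y ∈ W, ∀ X : Finset (ℕ × ℂ), LSS W I o y X →
  ∑ p ∈ X, cr W (o p.1) ^ κ * kt p.2 ≤ A * cr W y ^ κ

/-! ## The kernel -/

/-- FDV (short, pure): dividing by finitely many (double) zeros. Uses `RT.QDV_stmt`, `HY.MOB_stmt`.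
PROOF. (1) `g` from QDV (1). For `y ∈ UD`, `y ∉ E`: QDV (2) for `h ∘ S y` and the set `T y '' E` (`T y (x) ∈ UD`, `S y (T y x) = x`): `‖h y‖ ≤ ∏_(x ∈ E) ‖T y x‖ = ∏ ‖T x y‖ ≠ 0` (MOB), so `‖g y‖ ≤ 1`. For `y ∈ E`: `g` is continuous and `UD \ E` is dense in `UD` near `y`.
(2) `h = g₁ ∏ T x` by (1). At `x ∈ E`: `deriv h x = g₁ x * deriv (T x) x * ∏_(x' ≠ x) T x' x` (`T x x = 0`), `deriv (T x) x ≠ 0`, `T x' x ≠ 0` (`T x'` is injective, `T x' x' = 0`): so `g₁ x = 0`. Apply (1) to `g₁`. -/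
def FDV_stmt : Prop := ∀ (h : ℂ → ℂ) (E : Finset ℂ), DifferentiableOn ℂ h UD → MapsTo h UD (closedBall 0 1) → (∀ x ∈ E, x ∈ UD ∧ h x = 0) →
  (∃ g : ℂ → ℂ, DifferentiableOn ℂ g UD ∧ MapsTo g UD (closedBall 0 1) ∧ ∀ y ∈ UD, h y = g y * ∏ x ∈ E, T x y) ∧
  ((∀ x ∈ E, deriv h x = 0) → ∃ g : ℂ → ℂ, DifferentiableOn ℂ g UD ∧ MapsTo g UD (closedBall 0 1) ∧ ∀ y ∈ UD, h y = g y * (∏ x ∈ E, T x y) ^ 2)

/-- DBP (short/medium): THE DOUBLE POINT. Uses FDV, TBL, TLF, TDF, TBM, QFN.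
PROOF. `z = c`: the left side is `bl V (F c) (F c) = 0` (TBM). Let `z ≠ c`. `G` = the lift of `F` with centres `z`, `F z` and `G 0 = 0` (TLF: `rm V (F z) (G y) = F (rm W z y)`), `B` from TBL for `V`, centre `F z`, pole `F c`; `h = B ∘ G`: `‖h y‖ = bl V (F (rm W z y)) (F c) ≤ 1`. Let `E` be a finite set of lifts `x` of `c` (`rm W z x = c`):
`h x = 0`; `(rm V (F z))'(G x) G' x = F' c (rm W z)' x = 0` and `(rm V (F z))' ≠ 0` on `UD` (TDF): `G' x = 0`, so `deriv h x = 0`. FDV (2): `‖h 0‖ ≤ (∏_E ‖T x 0‖)² = (∏_E ‖x‖)²`. `‖h 0‖ = bl V (F z) (F c)`, and `∏_E ‖x‖ ≤ bl W z c + ε` for a suitable `E` (QFN). -/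
def DBP_stmt : Prop := ∀ (s : ℝ) (W V : Set ℂ) (F : ℂ → ℂ), 0 < s → TD s W → TD s V → DifferentiableOn ℂ F W → MapsTo F W V →
  ∀ c ∈ W, deriv F c = 0 → ∀ z ∈ W, bl V (F z) (F c) ≤ (bl W z c) ^ 2

/-- KRA (medium, pure): LOWER BOUND FOR `-log ‖g‖` by the Green functions of the points at which `‖g‖ ≤ 1 - τ`. Uses `RT.QMX_stmt`, `ED.SPK_stmt`, `HY.MOB_stmt`.
PROOF. `τ = 0` or `E = ∅`: clear (`‖g 0‖ ≤ 1`). Let `τ > 0`, `E ≠ ∅`: `g` is not of modulus one at `x ∈ E`, so `MapsTo g UD UD` (maximum modulus). (a) If `y ∈ UD`, `x ∈ E`, `‖T x y‖ ≤ 3/5` then `1 - ‖g y‖ ≥ τ/5`: SPK (1) `ρ' := ‖T (g x) (g y)‖ ≤ 3/5` and SPK (3): `(1 - ‖g x‖)(1 - ρ')/2 ≤ 1 - ‖g y‖`. So `‖g y‖ ≤ 1 - τ/5 ≤ exp (-τ/5)`.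
(b) If `‖x‖ ≤ 3/5` for some `x ∈ E`: (a) for `y = 0` and `C₁ ≥ 1`, `min ≤ 1`. (c) Otherwise let `3/5 < ‖x‖` for all `x ∈ E`, `t < 1` with `E ⊆ ball 0 t`, `Ω = {y | ‖y‖ < t ∧ ∀ x ∈ E, 3/5 < ‖T x y‖}`: open, bounded, contains `0`; in its closure (contained in `closedBall 0 t`) `3/5 ≤ ‖T x y‖`. `lam = τ/(5 C₁)`. QMX with `g₀ = g`, the functions `T x` (`x ∈ E`, index type `↥E`),
exponents `-lam`: on the frontier either `‖y‖ = t`: the product is `≤ ∏ ‖T x y‖^(-lam) ≤ M_t` with `M_t → 1` for `t → 1` (`‖T x y‖ → 1` uniformly for `‖y‖ → 1`, MOB); or `‖T x y‖ = 3/5` for some `x`: `‖g y‖ ≤ exp (-τ/5)` by (a), and `∏ ‖T x y‖^(-lam) = exp (lam ∑ log (1/‖T x y‖)) ≤ exp (lam C₁) = exp (τ/5)`. So `‖g 0‖ ∏ ‖x‖^(-lam) ≤ max 1 M_t`; `t → 1`. -/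
def KRA_stmt : Prop := ∀ (g : ℂ → ℂ) (E : Finset ℂ) (τ C₁ : ℝ), DifferentiableOn ℂ g UD → MapsTo g UD (closedBall 0 1) → 0 ≤ τ → τ ≤ 1 → 1 ≤ C₁ →
  (∀ x ∈ E, x ∈ UD ∧ ‖g x‖ ≤ 1 - τ) → (∀ y ∈ UD, (∀ x ∈ E, 3 / 5 ≤ ‖T x y‖) → ∑ x ∈ E, Real.log (1 / ‖T x y‖) ≤ C₁) →
  ‖g 0‖ ≤ Real.exp (-(τ / (5 * C₁) * min 1 (∑ x ∈ E, Real.log (1 / ‖x‖))))

/-- KRN (medium): THE KERNEL BOUND. Uses KRA, DBP, FDV, TBL, TLF, TDF, TBM, QFN, QGB, ACR, ATA.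
PROOF. `z = z'`: the left side is `0`. `z = c` or `z' = c`: DBP (and the symmetry of `bl`): the left side is `≤ bl²`, and `bl ≤ exp (-(1 - bl)) ≤ exp (-c₀ (1 - bl))`, `bl W c c = 0`. Let `z, z', c` be different. `G`, `B`, `h = B ∘ G` as in DBP, centre `F z`, pole `F z'`: `‖h y‖ = bl V (F (rm W z y)) (F z') ≤ 1`.
`E'` = a finite set of lifts of `z'` (centre `z`): `h = 0` on `E'`; `g` from FDV (1): `h = g ∏_(E') T`. `E` = a finite set of lifts of `c`. `x ∈ E`: `‖h x‖ = bl V (F c) (F z') ≤ (bl W z' c)²` (DBP, symmetry), `∏_(x' ∈ E') ‖T x' x‖ ≥ bl W c z' > 0` (QFN for the pair `c ≠ z'`; the points `u T x x'` are different lifts of `z'` in the cover with centre `c = rm W z x`: ACR third claim),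
so `‖g x‖ ≤ bl W z' c = 1 - τ`, `τ = 1 - bl W z' c`. The hypothesis of KRA on `E`: for `y ∈ UD` the points `u T y x` (`x ∈ E`) are different lifts of `c` for the centre `rm W z y`, of norm `‖T y x‖ = ‖T x y‖ ≥ 3/5 > 1/2 = ro 1`: ATA (`n = 0`): sum `≤ C₁ := max 1 C`. KRA: `bl V (F z) (F z') = ‖h 0‖ = ‖g 0‖ ∏_(E') ‖x'‖ ≤ exp (-(τ/(5 C₁)) min 1 (∑_E log (1/‖x‖))) ∏_(E') ‖x'‖`.
QFN: for `ε > 0` choose `E'` with `∏_(E') ‖x'‖ ≤ bl W z z' + ε` and `E` with `∑_E ≥ gr W z c - ε ≥ 1 - bl W z c - ε` (QGB (1)); `ε → 0`. `c₀ = 1/(5 C₁)`. -/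
def KRN_stmt : Prop := ∀ s : ℝ, 0 < s → s ≤ 1 → ∃ c₀ : ℝ, 0 < c₀ ∧ c₀ ≤ 1 ∧ ∀ (W V : Set ℂ) (F : ℂ → ℂ), TD s W → TD s V → DifferentiableOn ℂ F W → MapsTo F W V →
  ∀ c ∈ W, deriv F c = 0 → ∀ z ∈ W, ∀ z' ∈ W, bl V (F z) (F z') ≤ bl W z z' * Real.exp (-(c₀ * (1 - bl W z c) * (1 - bl W z' c)))

/-- KCH (short): the kernel bound for a chain. Uses KRN. PROOF. Induction on `N` (`cmp F N` maps `W 0` into `W N`; a chain of length `N + 1` restricts to a chain of length `N`). -/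
def KCH_stmt : Prop := ∀ s : ℝ, 0 < s → s ≤ 1 → ∃ c₀ : ℝ, 0 < c₀ ∧ c₀ ≤ 1 ∧ ∀ (N : ℕ) (W : ℕ → Set ℂ) (F : ℕ → ℂ → ℂ) (c : ℕ → ℂ), CHN s N W F c → ∀ z ∈ W 0, ∀ z' ∈ W 0,
  (∀ j ≤ N, cmp F j z ∈ W j) ∧ bl (W N) (cmp F N z) (cmp F N z') ≤
    bl (W 0) z z' * Real.exp (-(c₀ * ∑ j ∈ Finset.range N, (1 - bl (W j) (cmp F j z) (c j)) * (1 - bl (W j) (cmp F j z') (c j))))

/-! ## The Schur estimate -/

/-- KTM (short/medium, pure): the truncated logarithm. Uses `RT.AMV_stmt`, `HY.MOB_stmt`.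
PROOF. (1), (2) by definition (`1/2 ≤ max ‖x‖ (1/2) ≤ 1`). (3) `w ↦ kt (T w x)` is continuous on the circle `‖w‖ = 1/2` (`T w x = (x - w)/(1 - conj w x)`, `max ≥ 1/2 > 0`), so it is integrable. If `‖x‖ < 4/5`: `kt x ≤ log 2` and the average is `≥ 0`. If `‖x‖ ≥ 4/5`: for `‖w‖ = 1/2`: `‖T w x‖ ≥ (‖x‖ - 1/2)/(1 - ‖x‖/2) ≥ 1/2` (increasing in `‖x‖`, `= 1/2` for `‖x‖ = 4/5`; as in ARO:
`ro 2 = 4/5`, `ro 1 = 1/2`), so `kt (T w x) = log (1/‖T w x‖)` and AMV: the average is `log (1/‖x‖) = kt x`. -/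
def KTM_stmt : Prop := (∀ x : ℂ, ‖x‖ ≤ 1 → 0 ≤ kt x ∧ kt x ≤ Real.log 2) ∧ (∀ x : ℂ, 1 / 2 ≤ ‖x‖ → kt x = Real.log (1 / ‖x‖)) ∧
  ∀ x ∈ UD, CircleIntegrable (fun w : ℂ => kt (T w x)) 0 (1 / 2) ∧
    kt x ≤ Real.circleAverage (fun w : ℂ => kt (T w x)) 0 (1 / 2) + (if ‖x‖ < 4 / 5 then Real.log 2 else 0)

/-- PAK (short, pure): PACKING. Uses `P2A.CEL_stmt` (with `β = 1 - ρ`, `η = min ε 1/2`: different points of `E` are in different cells; enumerate `E` by `E.equivFin` or `E.toList`), or the area. -/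
def PAK_stmt : Prop := ∀ ε ρ : ℝ, 0 < ε → ρ < 1 → ∃ C : ℝ, 0 ≤ C ∧ ∀ E : Finset ℂ, (∀ x ∈ E, ‖x‖ ≤ ρ) → (∀ x ∈ E, ∀ y ∈ E, x ≠ y → ε ≤ ‖T x y‖) → (E.card : ℝ) ≤ C

/-- SA0 (short/medium): A PRIORI BOUND (the constant depends on the family). Uses KTM, PAK, ABS, ACR, ACK.
PROOF. `κ₁` from ABS (`min κ₁ 1`). `κ ≤ κ₁`. Let `i ∈ I`. The points `p ∈ X` with `p.1 = i`, `‖p.2‖ > 1/2`: `kt = log (1/‖·‖)`, ABS: `∑ kt ≤ C (cr W y/cr W (o i))^κ`, times `cr W (o i)^κ`: `≤ C cr W y^κ`. The points with `‖p.2‖ ≤ 1/2`: they are `s`-separated (ACR: different lifts of the same point), so at most `C'` (PAK), `kt ≤ log 2`, and `cr W (o i) = cr W (rm W y p.2) ≤ C'' cr W y` (ACK, `ρ = 1/2`).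
Sum over `i ∈ I`: `A = card I (C + log 2 C' C''^κ)`. -/
def SA0_stmt : Prop := ∀ s : ℝ, 0 < s → s ≤ 1 → ∃ κ₁ : ℝ, 0 < κ₁ ∧ κ₁ ≤ 1 ∧ ∀ κ : ℝ, 0 < κ → κ ≤ κ₁ → ∀ W : Set ℂ, TD s W → ∀ (I : Finset ℕ) (o : ℕ → ℂ), (∀ i ∈ I, o i ∈ W) →
  ∃ A : ℝ, 0 ≤ A ∧ BDD W κ A I o

/-- SA1 (medium): ONE STEP. Uses KTM, PAK, ABR, ACR, ACK, MOB.
PROOF. `κ₀` from ABR. Let `y ∈ W`, `X` with `LSS W I o y X`. KTM: `kt p.2 ≤ average of kt (T w p.2) + log 2 [‖p.2‖ < 4/5]`. FIRST PART: for `‖w‖ = 1/2` let `u` be the number of ACR (third claim, centre `y`): `X_w` = the image of `X` under `p ↦ (p.1, u * T w p.2)` (injective: `T w` is injective on `UD`) satisfies `LSS W I o (rm W y w) X_w`, `kt (u * T w p.2) = kt (T w p.2)`: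
`∑_(p ∈ X) cr W (o p.1)^κ kt (T w p.2) ≤ A cr W (rm W y w)^κ`. Average over the circle (`Real.circleAverage_mono` or the interval integral; finite sums and constants commute with the average): `≤ A (1 - κ/8) cr W y^κ` (ABR). SECOND PART: `X' = {p ∈ X | ‖p.2‖ < 4/5}`; `p ↦ p.2` is injective on `X` (`rm W y p.2 = o p.1`; equal points of a separated family have equal indices since `pd = 0 < ε`),
and the image is `min ε s`-separated: `p.1 = p'.1`: ACR (`s ≤ ‖T p.2 p'.2‖`); `p.1 ≠ p'.1`: `ε ≤ pd W (o p.1) (o p'.1) ≤ ‖T p.2 p'.2‖` (ACR, last claim). PAK (`ρ = 4/5`): `card X' ≤ C₁`; ACK (`ρ = 4/5`): `cr W (o p.1)^κ ≤ C₂^κ cr W y^κ`. `C' = log 2 C₁ C₂^κ`. -/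
def SA1_stmt : Prop := ∀ s ε : ℝ, 0 < s → s ≤ 1 → 0 < ε → ∃ κ₀ : ℝ, 0 < κ₀ ∧ κ₀ ≤ 1 ∧ ∀ κ : ℝ, 0 < κ → κ ≤ κ₀ → ∃ C' : ℝ, 0 ≤ C' ∧ ∀ W : Set ℂ, TD s W → ∀ (I : Finset ℕ) (o : ℕ → ℂ), SEP W ε I o →
  ∀ A : ℝ, 0 ≤ A → BDD W κ A I o → BDD W κ ((1 - κ / 8) * A + C') I o

/-- SA2 (short): THE SCHUR BOUND. Uses SA0, SA1.
PROOF. `A₀` from SA0. Induction on `m`: `BDD W κ ((1 - κ/8)^m A₀ + 8 C'/κ)` (`(1 - κ/8) 8C'/κ + C' = 8C'/κ`). For fixed `y`, `X` let `m → ∞`. `C = 8 C'/κ`. -/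
def SA2_stmt : Prop := ∀ s ε : ℝ, 0 < s → s ≤ 1 → 0 < ε → ∃ κ₀ : ℝ, 0 < κ₀ ∧ κ₀ ≤ 1 ∧ ∀ κ : ℝ, 0 < κ → κ ≤ κ₀ → ∃ C : ℝ, 0 ≤ C ∧ ∀ W : Set ℂ, TD s W → ∀ (I : Finset ℕ) (o : ℕ → ℂ), SEP W ε I o → BDD W κ C I o

/-- SAT (medium): THE TAIL. Uses SA2, KTM, ABR, AMV, ARO, ACR, MOB. Copy Pool/Agent/helper84/RT/ATL.lean (there: one pole).
PROOF. Induction on `n` for all `y`, `X`. `n = 0`: `ro 1 = 1/2`, `kt = log (1/‖·‖)`: SA2. Step: `ro (n+2) < ‖p.2‖`, so `1/2 < ‖p.2‖` and `log (1/‖p.2‖)` = the average of `log (1/‖T w p.2‖)` (AMV). For `‖w‖ = 1/2` the set `X_w` (see SA1) has `ro (n+1) < ‖T w p.2‖` (ARO): `∑ ≤ C (1 - κ/8)^n cr W (rm W y w)^κ`; average and ABR. -/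
def SAT_stmt : Prop := ∀ s ε : ℝ, 0 < s → s ≤ 1 → 0 < ε → ∃ κ₀ : ℝ, 0 < κ₀ ∧ κ₀ ≤ 1 ∧ ∀ κ : ℝ, 0 < κ → κ ≤ κ₀ → ∃ C : ℝ, 0 ≤ C ∧ ∀ (n : ℕ) (W : Set ℂ), TD s W → ∀ (I : Finset ℕ) (o : ℕ → ℂ), SEP W ε I o →
  ∀ y ∈ W, ∀ X : Finset (ℕ × ℂ), LSS W I o y X → (∀ p ∈ X, ro (n + 1) < ‖p.2‖) → ∑ p ∈ X, cr W (o p.1) ^ κ * Real.log (1 / ‖p.2‖) ≤ C * (1 - κ / 8) ^ n * cr W y ^ κ

/-- SCH (short/medium): the tail with Green functions. Uses SAT, QFN, TDF, ACR.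
PROOF. `J` = the set of the sum. For `i ∈ J`: `pd W y (o i) > ro (n+1) ≥ 0`, so `y ≠ o i`, and all lifts of `o i` have norm `≥ pd > ro (n+1)` (ACR). QFN: finite sets `F i` of lifts with `gr W y (o i) ≤ ∑_(F i) log (1/‖x‖) + ε'`; `X = J.sigma F` (as a Finset of pairs). SAT. `ε' → 0`. -/
def SCH_stmt : Prop := ∀ s ε : ℝ, 0 < s → s ≤ 1 → 0 < ε → ∃ κ₀ : ℝ, 0 < κ₀ ∧ κ₀ ≤ 1 ∧ ∀ κ : ℝ, 0 < κ → κ ≤ κ₀ → ∃ C : ℝ, 0 ≤ C ∧ ∀ (n : ℕ) (W : Set ℂ), TD s W → ∀ (I : Finset ℕ) (o : ℕ → ℂ), SEP W ε I o →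
  ∀ y ∈ W, ∑ i ∈ I.filter (fun i => ro (n + 1) < pd W y (o i)), gr W y (o i) * cr W (o i) ^ κ ≤ C * (1 - κ / 8) ^ n * cr W y ^ κ

/-- NRB (short): the near part. Uses ARE, TKO, TBM, TDF, TPT.
PROOF. `i` in the sum: `1 - bl W (o i) y ≥ 1 - pd W (o i) y ≥ 1 - ρ` (TBM, TPT; if `ρ < 0` the sum is empty): ARE (`c = y`, `g = 1 - ρ` (`min 1`), `θ = 2`): at most `C₁` indices (`i ↦ o i` is injective on `I`). `cr W (o i) ≤ C₂ cr W y` (TKO), `C₂ ≥ 1`, `κ ≤ 1`: `cr W (o i)^κ ≤ C₂ cr W y^κ`. -/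
def NRB_stmt : Prop := ∀ s ε ρ : ℝ, 0 < s → s ≤ 1 → 0 < ε → ρ < 1 → ∃ C : ℝ, 0 ≤ C ∧ ∀ κ : ℝ, 0 < κ → κ ≤ 1 → ∀ W : Set ℂ, TD s W → ∀ (I : Finset ℕ) (o : ℕ → ℂ), SEP W ε I o →
  ∀ y ∈ W, ∑ i ∈ I.filter (fun i => pd W y (o i) ≤ ρ), cr W (o i) ^ κ ≤ C * cr W y ^ κ

/-! ## The energy estimate -/

/-- SHR (short, pure): SCHUR TEST.
PROOF. `w r * w t ≤ ((w r)² p' t/p r + (w t)² p r/p' t)/2` (AM-GM: `(w r √(p' t/p r) - w t √(p r/p' t))² ≥ 0`), multiply by `H r t ≥ 0`, sum: `∑_r (w r)²/p r ∑_t H r t p' t ≤ Λ ∑ (w r)²`, and the same for the second term. -/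
def SHR_stmt : Prop := ∀ (I : Finset ℕ) (H : ℕ → ℕ → ℝ) (w p p' : ℕ → ℝ) (Λ : ℝ), (∀ r ∈ I, ∀ t ∈ I, 0 ≤ H r t) → (∀ r ∈ I, 0 < p r ∧ 0 < p' r) →
  (∀ r ∈ I, ∑ t ∈ I, H r t * p' t ≤ Λ * p r) → (∀ t ∈ I, ∑ r ∈ I, H r t * p r ≤ Λ * p' t) → ∑ r ∈ I, ∑ t ∈ I, w r * w t * H r t ≤ Λ * ∑ r ∈ I, w r ^ 2

/-- ENCH (medium): THE ENERGY ESTIMATE FOR A CHAIN. Uses KCH, SCH, NRB, SHR, QFN, TBM, TDF, TPT, ARO.
PROOF. `c₀` from KCH; `κ` = the `κ₀` of SCH, `C₁` from SCH; `n` with `C₁ (1 - κ/8)^n ≤ δ c₀`; `η = 1 - ro (n+1)`; `C₂` from NRB for `ρ = ro (n+1)`; `C = C₂/c₀`. `Q r = cmp F N (q r)`, `Q' t = cmp F N (q' t)`, `V = W N`. All numbers `bl` below are positive (`Q r ≠ Q' t`, so `q r ≠ q' t`; TBM).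
`H r t = log (bl (W 0) (q r) (q' t)) - log (bl V (Q r) (Q' t))`. KCH (logarithm): `H r t ≥ c₀ ∑_j (..)(..) ≥ c₀ N w r w t ≥ 0`. `H r t ≤ - log (bl V (Q r) (Q' t)) = gr V (Q r) (Q' t)` (`bl ≤ 1`), and `H r t ≤ io` if `pd V (Q r) (Q' t) ≤ ro (n+1)`. `p r = cr V (Q r)^κ`, `p' t = cr V (Q' t)^κ`.
Rows: `∑_t H r t p' t ≤ io C₂ p r + C₁ (1 - κ/8)^n p r ≤ (io C₂ + δ c₀) p r` (NRB, SCH with `y = Q r`, family `Q'`), columns the same (`pd`, `gr` symmetric: TPT, TBM). SHR: `c₀ N (∑ w²)² ≤ ∑∑ w r w t H r t ≤ (io C₂ + δ c₀) ∑ w²`. If `∑ w² = 0` the claim is clear; otherwise divide by `c₀ ∑ w²`. -/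
def ENCH_stmt : Prop := ∀ s ε δ : ℝ, 0 < s → s ≤ 1 → 0 < ε → 0 < δ → ∃ η C : ℝ, 0 < η ∧ η < 1 ∧ 0 ≤ C ∧ ∀ (N : ℕ) (W : ℕ → Set ℂ) (F : ℕ → ℂ → ℂ) (c : ℕ → ℂ), CHN s N W F c →
  ∀ (I : Finset ℕ) (q q' : ℕ → ℂ) (w : ℕ → ℝ) (io : ℝ), 0 ≤ io → (∀ r ∈ I, q r ∈ W 0 ∧ q' r ∈ W 0 ∧ 0 ≤ w r) →
  (∀ r ∈ I, ∀ j < N, w r ≤ 1 - bl (W j) (cmp F j (q r)) (c j) ∧ w r ≤ 1 - bl (W j) (cmp F j (q' r)) (c j)) →
  (∀ r ∈ I, ∀ t ∈ I, r ≠ t → ε ≤ pd (W N) (cmp F N (q r)) (cmp F N (q t)) ∧ ε ≤ pd (W N) (cmp F N (q' r)) (cmp F N (q' t))) →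
  (∀ r ∈ I, ∀ t ∈ I, cmp F N (q r) ≠ cmp F N (q' t)) →
  (∀ r ∈ I, ∀ t ∈ I, pd (W N) (cmp F N (q r)) (cmp F N (q' t)) ≤ 1 - η → bl (W 0) (q r) (q' t) ≤ Real.exp io * bl (W N) (cmp F N (q r)) (cmp F N (q' t))) →
  (N : ℝ) * ∑ r ∈ I, w r ^ 2 ≤ δ + C * io

end FSE
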